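import Pool.Agent.T9h37.MC.Defs2
import Pool.Agent.TH133.Defs

/-!
# Cohomology which is algebraic outside the middle degree
-/

open CategoryTheory AlgebraicGeometry

set_option autoImplicit false

universe u v w

namespace Pool.Agent.T9h61.MC

open Pool.Agent.H914 Pool.Agent.H914.VarClass Pool.Agent.H914.VarClass.Obj Pool.Agent.W492.BB
  Pool.Agent.T9h37.MC

variable {k : Type u} [Field k] {𝒱 : VarClass k}

/-- The cohomology of `X` is spanned by classes of cycles outside the middle degree `dim X`: the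
groups `H^(2i)(X)`, `2i ≠ dim X`, are spanned by classes of cycles and the groups `H^m(X)`, `m` odd,
`m ≠ dim X`, are zero. -/
def AlgOutsideMiddle {C : TheoryData.{u, v, 0} 𝒱 ℚ} {K : Type w} [Field K]
    (H : WeilTheoryData.{u, v, w} C K) (X : 𝒱.Obj) : Prop :=
  (∀ i : ℤ, 2 * i ≠ X.dim → Alg H X i) ∧ ∀ m : ℤ, Odd m → m ≠ X.dim → H.gr X m = ⊥

/-- Each idempotent self-correspondence of degree zero of `X` which is homologically trivial acts as
zero on the Chow groups of `X`. -/
def PhantomsActAsZero {C : TheoryData.{u, v, 0} 𝒱 ℚ} {K : Type w} [Field K]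
    (H : WeilTheoryData.{u, v, w} C K) (X : 𝒱.Obj) : Prop :=
  ∀ q : C.A (X.prod X), C.Deg X.dim q → H.cl q = 0 → C.comp q q = q →
    ∀ (i : ℕ) (x : C.A X), C.Deg i x → C.act q x = 0

/-- The homologically trivial cycles of codimension `i` are zero for `0 < 2 i < dim X`. -/
def InjectiveBelowMiddle {C : TheoryData.{u, v, 0} 𝒱 ℚ} {K : Type w} [Field K]
    (H : WeilTheoryData.{u, v, w} C K) (X : 𝒱.Obj) : Prop :=
  ∀ (i : ℕ) (x : C.A X), 0 < i → 2 * i < X.dim → C.Deg i x → H.cl x = 0 → x = 0

end Pool.Agent.T9h61.MC
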