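import Pool.Agent.T9h61.MC.Mid

/-!
# Chow-Kunneth decompositions if the cohomology is algebraic outside the middle degree
-/

open CategoryTheory AlgebraicGeometry

set_option autoImplicit false

universe u v w

namespace Pool.Agent.T9h61.MC

open Pool.Agent.H914 Pool.Agent.H914.VarClass Pool.Agent.H914.VarClass.Obj Pool.Agent.W492.BB
  Pool.Agent.W550.Corr Pool.Agent.TH133 Pool.Agent.Y110 Pool.Agent.TH829.Kim
  Pool.Agent.TH829.Prime Pool.Agent.T9h37.MC

set_option linter.unusedSectionVars false

variable {k : Type u} [Field k] {𝒱 : VarClass k} {C : TheoryData.{u, v, 0} 𝒱 ℚ}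
  [hC : IsChowProj C] {K : Type w} [Field K]
  {H : WeilTheoryData.{u, v, w} C K} [hH : IsWeilProj H] {X Y Z W : 𝒱.Obj}

include hC hH

/-- The class of an external product acts as zero outside one degree. -/
lemma ext_actH_ne {i : ℕ} {a b : C.A X} (hb : b ∈ C.gr X ((X.dim : ℤ) - i)) {n : ℤ}
    (hn : n ≠ 2 * i) {v : H.A X} (hv : v ∈ H.gr X n) : H.act (H.cl (C.ext b a)) v = 0 := by
  rw [TheoryData.act_apply, TheoryData.ext, map_mul H.cl, H.cl_pull, H.cl_pull]
  have hc : ∀ c : H.A (X.prod X), H.pull (snd X X) (H.cl a) * c =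
      c * H.pull (snd X X) (H.cl a) := by
    intro c
    rw [← H.cl_pull]
    exact H.cl_central _ _
  have h1 : H.pull (fst X X) (H.cl b) * H.pull (snd X X) (H.cl a) * H.pull (fst X X) v =
      H.pull (fst X X) (H.cl b * v) * H.pull (snd X X) (H.cl a) := by
    rw [mul_assoc, hc, ← mul_assoc, map_mul]
  rw [h1, H.proj_right]
  have h2 : H.push (snd X X) (H.pull (fst X X) (H.cl b * v)) = 0 := by
    have h3 : H.cl b * v ∈ H.gr X (2 * ((X.dim : ℤ) - i) + n) := H.mul_mem (H.cl_mem hb) hv
    rcases lt_or_gt_of_ne (show 2 * ((X.dim : ℤ) - i) + n ≠ 2 * X.dim by omega) with h | h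
    · have h5 := H.push_mem (snd X X) (H.pull_mem (fst X X) h3)
      rw [dim_prod, H.gr_neg X _ (by push_cast; omega)] at h5
      exact (Submodule.mem_bot _).1 h5
    · rw [gr_top H h, Submodule.mem_bot] at h3
      rw [h3, map_zero, map_zero]
  rw [h2, zero_mul]

lemma dualProj_actH_ne {i m : ℕ} {a b : Fin m → C.A X}
    (hb : ∀ l, b l ∈ C.gr X ((X.dim : ℤ) - i)) {n : ℤ} (hn : n ≠ 2 * i) {v : H.A X}
    (hv : v ∈ H.gr X n) : actH C X H (dualProj a b) v = 0 := by
  show H.act (H.cl (∑ l, C.ext (b l) (a l))) v = 0
  rw [map_sum, act_sum]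
  exact Finset.sum_eq_zero fun l _ => ext_actH_ne (hb l) hn hv

theorem exists_ck_mid (hM : AlgOutsideMiddle H X) {p : Cor C X} (hpm : p ∈ cor0 C X)
    (hpp : p * p = p) (hpact : ∀ v : H.A X, actH C X H p v = v) :
    ∃ P : ℕ → Cor C X, IsCK H X P ∧ ∀ j, P j * p = p * P j := by
  have hch : ∀ i : ℕ, ∃ (m : ℕ) (a b : Fin m → C.A X),
    (∀ l, a l ∈ C.gr X i) ∧ (∀ l, b l ∈ C.gr X ((X.dim : ℤ) - i)) ∧
    (∀ j l, HasDegree C (a j * b l) (if j = l then 1 else 0)) ∧
    (2 * i ≠ X.dim → H.gr X (2 * i) ≤ Submodule.span K (Set.range fun l => H.cl (a l))) ∧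
    (2 * i = X.dim → m = 0) := by
    intro i
    by_cases hi : 2 * i = X.dim
    · exact ⟨0, Fin.elim0, Fin.elim0, fun l => l.elim0, fun l => l.elim0, fun j => j.elim0,
        fun h => absurd hi h, fun _ => rfl⟩
    · obtain ⟨m, a, b, h1, h2, h3, h4, -⟩ := exists_dual (H := H) (X := X) (i := i)
        ⟨hM.1 i (by omega), hM.1 ((X.dim : ℤ) - i) (by omega)⟩
      exact ⟨m, a, b, h1, h2, h3, fun _ => h4, fun h => absurd h hi⟩
  choose m a b ha hb hab hsp hm0 using hch
  let e : ℕ → Cor C X := fun i => dualProj (a i) (b i)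
  have hem : ∀ i, e i ∈ cor0 C X := fun i => dualProj_mem (H := H) (ha i) (hb i)
  have he0 : ∀ i, 2 * i = X.dim → e i = 0 := by
    intro i hi
    show (∑ l, C.ext (b i l) (a i l)) = 0
    refine Finset.sum_eq_zero fun l _ => ?_
    have h := l.2
    have h' := hm0 i hi
    omega
  have hepe : ∀ i, e i * p * e i = e i := fun i =>
    dualProj_sandwich (H := H) (ha i) (hb i) (hab i) hpm (fun l => by
      have h3 : H.cl (actC C X p (a i l)) = actH C X H p (H.cl (a i l)) := cl_act H _ _
      rw [h3, hpact])
  have hne : ∀ i j, i ≠ j → e i * p * e j = 0 := by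
    intro i j hij
    rw [mul_assoc]
    show dualProj (a i) (b i) * (p * dualProj (a j) (b j)) = 0
    rw [mul_dualProj (H := H), dualProj_mul (H := H) (fun l => actC C X p (a j l)) (b j) (a i)
      (b i) (fun _ _ => 0) (fun s t => by
        refine hasDegree_of_ne (H := H)
          (C.mul_mem (actC_mem (H := H) hpm (ha j s)) (hb i t)) ?_
        have : (j : ℤ) ≠ i := by exact_mod_cast (Ne.symm hij)
        omega)]
    refine Finset.sum_eq_zero fun s _ => Finset.sum_eq_zero fun t _ => ?_
    exact zero_smul _ _
  have hout : ∀ i, X.dim < i → e i = 0 := by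
    intro i hi
    show (∑ l, C.ext (b i l) (a i l)) = 0
    apply Finset.sum_eq_zero
    intro l _
    rw [hC.gr_top X i _ (ha i l) (by exact_mod_cast hi), TheoryData.ext_zero_right]
  have heact : ∀ (i : ℕ) (n : ℤ) (v : H.A X), v ∈ H.gr X n → 2 * i ≠ X.dim →
      actH C X H (e i) v = if n = 2 * i then v else 0 := by
    intro i n v hv hi
    split_ifs with hn
    · subst hn
      exact dualProj_actH (H := H) (ha i) (hb i) (hab i) (hsp i hi) hv
    · exact dualProj_actH_ne (H := H) (hb i) hn hv
  -- sandwiched
  let f : ℕ → Cor C X := fun i => p * e i * p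
  have hfm : ∀ i, f i ∈ cor0 C X := fun i =>
    (cor0 C X).mul_mem ((cor0 C X).mul_mem hpm (hem i)) hpm
  have hf0 : ∀ i, e i = 0 → f i = 0 := by
    intro i h
    show p * e i * p = 0
    rw [h, mul_zero, zero_mul]
  have hff : ∀ i j, f i * f j = if i = j then f i else 0 := by
    intro i j
    have h1 : f i * f j = p * (e i * p * e j) * p := by
      show p * e i * p * (p * e j * p) = _
      calc p * e i * p * (p * e j * p) = p * (e i * (p * p) * e j) * p := by
            simp only [mul_assoc]
        _ = _ := by rw [hpp]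
    rw [h1]
    split_ifs with h
    · subst h
      rw [hepe]
    · rw [hne i j h, mul_zero, zero_mul]
  have hpf : ∀ i, p * f i = f i := by
    intro i
    show p * (p * e i * p) = p * e i * p
    rw [← mul_assoc, ← mul_assoc, hpp]
  have hfp : ∀ i, f i * p = f i := by
    intro i
    show p * e i * p * p = p * e i * p
    rw [mul_assoc (p * e i), hpp]
  have hfact : ∀ (i : ℕ) (n : ℤ) (v : H.A X), v ∈ H.gr X n →
      actH C X H (f i) v = if n = 2 * i ∧ 2 * i ≠ X.dim then v else 0 := by
    intro i n v hv
    by_cases hi : 2 * i = X.dim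
    · rw [hf0 i (he0 i hi), map_zero, LinearMap.zero_apply, if_neg (by tauto)]
    · show actH C X H (p * e i * p) v = _
      rw [map_mul, map_mul, Module.End.mul_apply, Module.End.mul_apply, hpact, hpact,
        heact i n v hv hi]
      by_cases hn : n = 2 * i
      · rw [if_pos hn, if_pos ⟨hn, hi⟩]
      · rw [if_neg hn, if_neg (by tauto)]
  -- the components
  let E : ℕ → Cor C X := fun j => if Even j then f (j / 2) else 0
  have hEm : ∀ j, E j ∈ cor0 C X := by
    intro j
    show (if Even j then f (j / 2) else 0) ∈ cor0 C X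
    split_ifs
    · exact hfm _
    · exact (cor0 C X).zero_mem
  have hEE : ∀ i j, E i * E j = if i = j then E i else 0 := by
    intro i j
    show (if Even i then f (i / 2) else 0) * (if Even j then f (j / 2) else 0) =
      if i = j then (if Even i then f (i / 2) else 0) else 0
    by_cases hi : Even i
    · by_cases hj : Even j
      · rw [if_pos hi, if_pos hj, hff]
        by_cases hij : i = j
        · subst hij
          rw [if_pos rfl, if_pos rfl]
        · rw [if_neg hij, if_neg (by
            obtain ⟨p, hp⟩ := hi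
            obtain ⟨q, hq⟩ := hj
            omega)]
      · rw [if_neg hj, mul_zero]
        by_cases hij : i = j
        · exact absurd (hij ▸ hi) hj
        · rw [if_neg hij]
    · rw [if_neg hi, zero_mul, ite_self]
  have hEout : ∀ j, 2 * X.dim < j → E j = 0 := by
    intro j hj
    show (if Even j then f (j / 2) else 0) = 0
    split_ifs with hje
    · obtain ⟨r, hr⟩ := hje
      exact hf0 _ (hout _ (by omega))
    · rfl
  have hEd : E X.dim = 0 := by
    show (if Even X.dim then f (X.dim / 2) else 0) = 0
    split_ifs with hje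
    · obtain ⟨r, hr⟩ := hje
      exact hf0 _ (he0 _ (by omega))
    · rfl
  have hEp : ∀ j, E j * p = E j := by
    intro j
    show (if Even j then f (j / 2) else 0) * p = if Even j then f (j / 2) else 0
    split_ifs
    · exact hfp _
    · exact zero_mul _
  have hpE : ∀ j, p * E j = E j := by
    intro j
    show p * (if Even j then f (j / 2) else 0) = if Even j then f (j / 2) else 0
    split_ifs
    · exact hpf _
    · exact mul_zero _
  have hEact : ∀ (j : ℕ), j ≠ X.dim → ∀ (n : ℤ) (v : H.A X), v ∈ H.gr X n →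
      actH C X H (E j) v = if n = j then v else 0 := by
    intro j hjd n v hv
    show actH C X H (if Even j then f (j / 2) else 0) v = if n = j then v else 0
    by_cases hj : Even j
    · rw [if_pos hj, hfact _ n v hv]
      obtain ⟨p, hp⟩ := hj
      by_cases hn : n = j
      · rw [if_pos hn, if_pos (by constructor <;> omega)]
      · rw [if_neg hn, if_neg (by omega)]
    · rw [if_neg hj, map_zero, LinearMap.zero_apply]
      by_cases hn : n = j
      · rw [if_pos hn]
        have h1 : H.gr X n = ⊥ := by
          refine hM.2 n ?_ ?_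
          · rw [hn]
            exact_mod_cast (Nat.not_even_iff_odd.1 hj)
          · rw [hn]
            exact_mod_cast hjd
        rw [h1] at hv
        exact ((Submodule.mem_bot K).1 hv).symm
      · rw [if_neg hn]
  set R : Cor C X := 1 - ∑ j ∈ Finset.range (2 * X.dim + 1), E j with hR
  have hRm : R ∈ cor0 C X := (cor0 C X).sub_mem (cor0 C X).one_mem
    (Subalgebra.sum_mem _ fun j _ => hEm j)
  have hRE : ∀ j, R * E j = 0 := by
    intro j
    rw [hR, sub_mul, one_mul, Finset.sum_mul]
    simp only [hEE]
    by_cases hj : j ≤ 2 * X.dim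
    · rw [Finset.sum_eq_single j]
      · rw [if_pos rfl, sub_self]
      · intro l _ hl
        rw [if_neg hl]
      · intro h
        exact absurd (Finset.mem_range.2 (by omega)) h
    · rw [hEout j (by omega), zero_sub, neg_eq_zero]
      apply Finset.sum_eq_zero
      intro l hl
      rw [Finset.mem_range] at hl
      rw [if_neg (by omega)]
  have hER : ∀ j, E j * R = 0 := by
    intro j
    rw [hR, mul_sub, mul_one, Finset.mul_sum]
    simp only [hEE]
    by_cases hj : j ≤ 2 * X.dim
    · rw [Finset.sum_eq_single j]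
      · rw [if_pos rfl, sub_self]
      · intro l _ hl
        rw [if_neg (Ne.symm hl)]
      · intro h
        exact absurd (Finset.mem_range.2 (by omega)) h
    · rw [hEout j (by omega), zero_sub, neg_eq_zero]
      apply Finset.sum_eq_zero
      intro l hl
      rw [Finset.mem_range] at hl
      rw [if_neg (by omega)]
  have hRR : R * R = R := by
    conv_lhs => rw [hR]
    rw [← hR, sub_mul, one_mul, Finset.sum_mul, Finset.sum_eq_zero (fun j _ => hER j), sub_zero]
  have hRp : R * p = p * R := by
    rw [hR, sub_mul, mul_sub, one_mul, mul_one, Finset.sum_mul, Finset.mul_sum]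
    simp only [hEp, hpE]
  have hRact : ∀ (n : ℤ) (v : H.A X), v ∈ H.gr X n →
      actH C X H R v = if n = X.dim then v else 0 := by
    intro n v hv
    rw [hR, map_sub, map_one, map_sum, LinearMap.sub_apply, LinearMap.sum_apply]
    have h1 : ∀ j ∈ Finset.range (2 * X.dim + 1), actH C X H (E j) v =
        if (n = j ∧ j ≠ X.dim) then v else 0 := by
      intro j _
      by_cases hj : j = X.dim
      · rw [hj, hEd, map_zero, LinearMap.zero_apply, if_neg (by tauto)]
      · rw [hEact j hj n v hv]
        by_cases hn : n = j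
        · rw [if_pos hn, if_pos ⟨hn, hj⟩]
        · rw [if_neg hn, if_neg (by tauto)]
    rw [Finset.sum_congr rfl h1]
    show v - _ = _
    by_cases hv0 : v = 0
    · rw [hv0]
      simp
    · obtain ⟨q, rfl⟩ := Int.eq_ofNat_of_zero_le (nonneg_of_mem H hv hv0)
      have hq : q ≤ 2 * X.dim := by
        by_contra h
        have h2 := gr_top H (X := X) (i := (q : ℤ)) (by omega)
        rw [h2] at hv
        exact hv0 ((Submodule.mem_bot _).1 hv)
      by_cases hqd : q = X.dim
      · rw [if_pos (by exact_mod_cast hqd), Finset.sum_eq_zero, sub_zero]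
        intro j _
        rw [if_neg]
        rintro ⟨h1, h2⟩
        exact h2 (by omega)
      · rw [if_neg (by exact_mod_cast hqd), Finset.sum_eq_single q]
        · rw [if_pos ⟨rfl, hqd⟩, sub_self]
        · intro b _ hb
          rw [if_neg (by rintro ⟨h1, -⟩; exact hb (by omega))]
        · intro h
          exact absurd (Finset.mem_range.2 (by omega)) h
  refine ⟨fun j => E j + (if j = X.dim then R else 0), ?_, ?_⟩
  · apply isCK_of
    · intro j
      refine (cor0 C X).add_mem (hEm j) ?_
      split_ifs
      · exact hRm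
      · exact (cor0 C X).zero_mem
    · intro j hj
      show E j + (if j = X.dim then R else 0) = 0
      rw [hEout j hj, if_neg (by omega), add_zero]
    · intro i j
      show (E i + (if i = X.dim then R else 0)) * (E j + (if j = X.dim then R else 0)) =
        if i = j then (E i + (if i = X.dim then R else 0)) else 0
      have h1 : ∀ j, E i * (if j = X.dim then R else 0) = 0 := by
        intro j; split_ifs
        · exact hER i
        · exact mul_zero _
      have h2 : ∀ i, (if i = X.dim then R else 0) * E j = 0 := by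
        intro i; split_ifs
        · exact hRE j
        · exact zero_mul _
      rw [mul_add, add_mul, add_mul, hEE, h1, h2, add_zero, zero_add]
      by_cases hij : i = j
      · subst hij
        rw [if_pos rfl, if_pos rfl]
        split_ifs
        · rw [hRR]
        · rw [mul_zero]
      · rw [if_neg hij, if_neg hij, zero_add]
        by_cases hi : i = X.dim
        · rw [if_neg (show j ≠ X.dim by omega), mul_zero]
        · rw [if_neg hi, zero_mul]
    · rw [Finset.sum_add_distrib, Finset.sum_ite_eq', if_pos (Finset.mem_range.2 (by omega)), hR]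
      abel
    · intro j n v hv
      show actH C X H (E j + (if j = X.dim then R else 0)) v = _
      rw [map_add, LinearMap.add_apply]
      by_cases hj : j = X.dim
      · rw [if_pos hj, hRact n v hv, hj, hEd, map_zero, LinearMap.zero_apply, zero_add]
      · rw [if_neg hj, map_zero, LinearMap.zero_apply, add_zero]
        exact hEact j hj n v hv
  · intro j
    show (E j + (if j = X.dim then R else 0)) * p = p * (E j + (if j = X.dim then R else 0))
    rw [add_mul, mul_add, hEp, hpE]
    congr 1
    split_ifs
    · exact hRp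
    · rw [zero_mul, mul_zero]

/-! ### The equivalence -/

/-- (C) implies that phantoms act as zero. -/
theorem phantoms_of_murreC (hM : AlgOutsideMiddle H X) (h : MurreC H X) :
    PhantomsActAsZero H X := by
  intro q0 hq hcl hqq i x hx
  let q : Cor C X := q0
  have hqm : q ∈ cor0 C X := hq
  have hqq' : q * q = q := hqq
  have hqact : ∀ v : H.A X, actH C X H q v = 0 := fun v => actH_zero_of_cl hcl v
  obtain ⟨P, hP, hc⟩ := exists_ck_mid hM (p := 1 - q)
    ((cor0 C X).sub_mem (cor0 C X).one_mem hqm) (by
      rw [sub_mul, mul_sub, mul_sub, mul_one, one_mul, mul_one, hqq', sub_self, sub_zero])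
    (fun v => by
      rw [map_sub, map_one, LinearMap.sub_apply, hqact, sub_zero]
      rfl)
  have hc' : ∀ j, P j * q = q * P j := by
    intro j
    have h1 := hc j
    rw [mul_sub, sub_mul, mul_one, one_mul] at h1
    exact sub_right_injective h1
  exact phantom_comm h hP (q := q) hqm hcl hqq' hc' hx

/-- (C) implies that there are no homologically trivial cycles below the middle. -/
theorem injective_of_murreC (hM : AlgOutsideMiddle H X) (h : MurreC H X) :
    InjectiveBelowMiddle H X := by
  intro i x _ hi hx h0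
  have hph := phantoms_of_murreC hM h
  obtain ⟨P, hP, -⟩ := exists_ck_mid hM (X := X) (p := 1) (cor0 C X).one_mem (mul_one 1)
    (fun v => by rw [map_one]; rfl)
  rw [sum_act hP x]
  apply Finset.sum_eq_zero
  intro j _
  rcases lt_trichotomy j (2 * i) with hj | hj | hj
  · exact act_other hM hph hP (by omega) (by omega) hx
  · subst hj
    exact (block_of hph hP ⟨hM.1 i (by omega), hM.1 _ (by omega)⟩).2 x hx h0
  · exact act_gt h hP hj hx

theorem middle (hM : AlgOutsideMiddle H X) :
    (∃ π : ℕ → C.A (X.prod X), IsCK H X π) ∧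
    (MurreC H X ↔ PhantomsActAsZero H X ∧ InjectiveBelowMiddle H X) ∧
    (IsKimuraFinite C (ratFam C) X → (MurreC H X ↔ InjectiveBelowMiddle H X)) ∧
    (MurreC H X → ∀ π : ℕ → C.A (X.prod X), IsCK H X π → ∀ (i n : ℕ) (x : C.A X),
      x ∈ ckFil C π i n ↔ C.Deg i x ∧ (n = 0 ∨ (n + X.dim ≤ 2 * i ∧ H.cl x = 0) ∨ x = 0)) := by
  have hiff : MurreC H X ↔ PhantomsActAsZero H X ∧ InjectiveBelowMiddle H X := by
    refine ⟨fun h => ⟨phantoms_of_murreC hM h, injective_of_murreC hM h⟩, ?_⟩
    rintro ⟨h1, h2⟩ π π' hπ hπ' i n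
    ext x
    rw [fil_iff hM h1 h2 (P := π) hπ, fil_iff hM h1 h2 (P := π') hπ']
  refine ⟨?_, hiff, fun hk => ?_, fun h π hπ i n x => ?_⟩
  · obtain ⟨P, hP, -⟩ := exists_ck_mid hM (X := X) (p := 1) (cor0 C X).one_mem (mul_one 1)
      (fun v => by rw [map_one]; rfl)
    exact ⟨P, hP⟩
  · rw [hiff]
    refine ⟨fun h => h.2, fun h => ⟨?_, h⟩⟩
    intro q hq hcl hqq i x _
    rw [noPhantoms_of_kimura (H := H) hk q hq hqq hcl]
    exact C.act_zero x
  · exact fil_iff hM (hiff.1 h).1 (hiff.1 h).2 (P := π) hπ i n x

end Pool.Agent.T9h61.MC
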