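import Pool.Agent.T9h37.MC.Defs2
import Pool.Agent.TH133.Defs

/-!
# Algebraic cohomology in given degrees, injectivity in given codimensions
-/

open CategoryTheory AlgebraicGeometry

set_option autoImplicit false

universe u v w

namespace Pool.Agent.T9h61.MC

open Pool.Agent.H914 Pool.Agent.H914.VarClass Pool.Agent.H914.VarClass.Obj Pool.Agent.W492.BB
  Pool.Agent.T9h37.MC

variable {k : Type u} [Field k] {𝒱 : VarClass k}

/-- The cohomology of `X` in the degrees `m` with `P m` is spanned by classes of cycles: the groups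
`H^(2i)(X)` with `P (2 i)` are spanned by classes of cycles and the groups `H^m(X)`, `m` odd, with
`P m` are zero. -/
def AlgIn {C : TheoryData.{u, v, 0} 𝒱 ℚ} {K : Type w} [Field K]
    (H : WeilTheoryData.{u, v, w} C K) (X : 𝒱.Obj) (P : ℤ → Prop) : Prop :=
  (∀ i : ℤ, P (2 * i) → Alg H X i) ∧ ∀ m : ℤ, Odd m → P m → H.gr X m = ⊥

/-- Each idempotent self-correspondence of degree zero of `X` which is homologically trivial acts as
zero on the Chow groups of `X`. -/
def PhantomsAct0 {C : TheoryData.{u, v, 0} 𝒱 ℚ} {K : Type w} [Field K]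
    (H : WeilTheoryData.{u, v, w} C K) (X : 𝒱.Obj) : Prop :=
  ∀ q : C.A (X.prod X), C.Deg X.dim q → H.cl q = 0 → C.comp q q = q →
    ∀ (i : ℕ) (x : C.A X), C.Deg i x → C.act q x = 0

/-- The cycle class map is injective on `CH^i(X)` for the codimensions `i` with `P i`. -/
def InjIn {C : TheoryData.{u, v, 0} 𝒱 ℚ} {K : Type w} [Field K]
    (H : WeilTheoryData.{u, v, w} C K) (X : 𝒱.Obj) (P : ℕ → Prop) : Prop :=
  ∀ (i : ℕ) (x : C.A X), P i → C.Deg i x → H.cl x = 0 → x = 0

end Pool.Agent.T9h61.MC
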