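import Pool.Agent.T9h61.MC.Exist
import Pool.Agent.T9h61.MC.Stmt

/-!
# The theorem on varieties with algebraic cohomology outside the middle degree, final form
-/

open Pool.Agent.H914 Pool.Agent.H914.VarClass Pool.Agent.H914.VarClass.Obj Pool.Agent.W492.BB
  Pool.Agent.W550.Corr Pool.Agent.TH133 Pool.Agent.T9h37.MC

set_option autoImplicit false

universe u v w

namespace Pool.Agent.T9h61.MC

theorem fin {k : Type u} [Field k] {𝒱 : VarClass k} {C : TheoryData.{u, v, 0} 𝒱 ℚ}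
    [IsChowProj C] {K : Type w} [Field K] {H : WeilTheoryData.{u, v, w} C K} [IsWeilProj H]
    (X : 𝒱.Obj) (hM : AlgIn H X (fun m => m ≠ X.dim)) :
    (∃ π : ℕ → C.A (X.prod X), IsCK H X π) ∧
    (MurreC H X ↔ PhantomsAct0 H X ∧ InjIn H X (fun i => 0 < i ∧ 2 * i < X.dim)) ∧
    (MurreC H X → ∀ π : ℕ → C.A (X.prod X), IsCK H X π → ∀ (i n : ℕ) (x : C.A X),
      x ∈ ckFil C π i n ↔ C.Deg i x ∧ (n = 0 ∨ (n + X.dim ≤ 2 * i ∧ H.cl x = 0) ∨ x = 0)) ∧
    (AlgIn H X (fun _ => True) → (MurreC H X ↔ InjIn H X (fun _ => True))) := by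
  have hM' : AlgOutsideMiddle H X := hM
  obtain ⟨h1, h2, -, h4⟩ := middle hM'
  refine ⟨h1, ?_, h4, ?_⟩
  · rw [h2]
    refine and_congr Iff.rfl ⟨fun h i x hi => h i x hi.1 hi.2, fun h i x a b => h i x ⟨a, b⟩⟩
  · rintro ⟨ha, hb⟩
    rw [((single X).2 (fun i => ha i trivial) (fun m hm => hb m hm trivial)).2]
    exact ⟨fun h i x _ => h i x, fun h i x => h i x trivial⟩

end Pool.Agent.T9h61.MC
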