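import Pool.Agent.T9h37.MC.SingleFin
import Pool.Agent.T9h61.MC.Defs

/-!
# Murre's conjecture (C) for a variety whose cohomology is algebraic outside the middle degree
-/

open CategoryTheory AlgebraicGeometry

set_option autoImplicit false

universe u v w

namespace Pool.Agent.T9h61.MC

open Pool.Agent.H914 Pool.Agent.H914.VarClass Pool.Agent.H914.VarClass.Obj Pool.Agent.W492.BB
  Pool.Agent.W550.Corr Pool.Agent.TH133 Pool.Agent.Y110 Pool.Agent.TH829.Kim
  Pool.Agent.TH829.Prime Pool.Agent.T9h37.MC

set_option linter.unusedSectionVars false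

variable {k : Type u} [Field k] {𝒱 : VarClass k} {C : TheoryData.{u, v, 0} 𝒱 ℚ}
  [hC : IsChowProj C] {K : Type w} [Field K]
  {H : WeilTheoryData.{u, v, w} C K} [hH : IsWeilProj H] {X Y Z W : 𝒱.Obj}

include hC hH

/-! ### Arbitrary decompositions if phantoms act as zero -/

lemma phantom' (hph : PhantomsActAsZero H X) {q : Cor C X} (hq : q ∈ cor0 C X)
    (hcl : H.cl (q : C.A (X.prod X)) = 0) (hqq : q * q = q) {i : ℕ} {x : C.A X}
    (hx : x ∈ C.gr X i) : actC C X q x = 0 := hph q hq hcl hqq i x hx

/-- An algebraic Kunneth component acts through its cohomology classes. -/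
theorem block_of (hph : PhantomsActAsZero H X) {P : ℕ → Cor C X} (hP : IsCK H X P) {i : ℕ}
    (hA : Alg H X i ∧ Alg H X ((X.dim : ℤ) - i)) :
    (∀ j : ℕ, j ≠ i → ∀ x ∈ C.gr X j, actC C X (P (2 * i)) x = 0) ∧
      ∀ x ∈ C.gr X i, H.cl x = 0 → actC C X (P (2 * i)) x = 0 := by
  obtain ⟨m, a, b, ha, hb, hab, hsp, -⟩ := exists_dual hA
  set e : Cor C X := dualProj a b with he
  have hem : e ∈ cor0 C X := dualProj_mem (H := H) ha hb
  set p : Cor C X := P (2 * i) with hp
  have hpm : p ∈ cor0 C X := hP.deg (2 * i)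
  have hpp : p * p = p := by rw [hp, hP.mul_eq, if_pos rfl]
  have hpact : ∀ (n : ℤ) (v : H.A X), v ∈ H.gr X n → actH C X H p v = if n = 2 * i then v else 0 := by
    intro n v hv
    rw [hp, hP.actH_eq' (2 * i) n hv]
    push_cast
    rfl
  have hs : e * p * e = e := dualProj_sandwich (H := H) ha hb hab hpm fun l => by
    have h1 := hpact (2 * i) (H.cl (a l)) (H.cl_mem (ha l))
    rw [if_pos rfl] at h1
    rw [← h1]
    conv_rhs => rw [h1, ← h1]
    exact cl_act H _ _
  set q : Cor C X := p - p * e * p with hq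
  have hqm : q ∈ cor0 C X := (cor0 C X).sub_mem hpm
    ((cor0 C X).mul_mem ((cor0 C X).mul_mem hpm hem) hpm)
  have h1 : p * q = q := by
    rw [hq, mul_sub, hpp, ← mul_assoc, ← mul_assoc, hpp]
  have h2 : q * p = q := by
    rw [hq, sub_mul, hpp, mul_assoc, hpp]
  have h3 : (p * e * p) * (p * e * p) = p * e * p := by
    calc (p * e * p) * (p * e * p) = p * (e * (p * p) * e) * p := by simp only [mul_assoc]
      _ = _ := by rw [hpp, hs]
  have hqq : q * q = q := by
    have h4 : q * (p * e * p) = 0 := by
      rw [hq, sub_mul, h3]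
      rw [← mul_assoc, ← mul_assoc, hpp, sub_self]
    conv_lhs => rw [hq]
    rw [← hq, mul_sub, h2, h4, sub_zero]
  have hqcl : H.cl (q : C.A (X.prod X)) = 0 := by
    apply hom_zero_of_act
    have h4 : actH C X H q = 0 := by
      apply ext_gr H
      intro n v hv
      rw [LinearMap.zero_apply, hq, map_sub, LinearMap.sub_apply, map_mul, map_mul,
        Module.End.mul_apply, Module.End.mul_apply, hpact n v hv]
      split_ifs with hn
      · subst hn
        rw [dualProj_actH (H := H) ha hb hab hsp hv, hpact _ v hv, if_pos rfl, sub_self]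
      · rw [map_zero, map_zero, sub_zero]
    intro v
    exact LinearMap.congr_fun h4 v
  have key : ∀ (j : ℕ) (x : C.A X), x ∈ C.gr X j →
      actC C X p x = actC C X p (actC C X e (actC C X p x)) := by
    intro j x hx
    have h5 := phantom' hph hqm hqcl hqq hx
    rw [hq, map_sub, LinearMap.sub_apply, sub_eq_zero, actC_mul (H := H), actC_mul (H := H)] at h5
    exact h5
  constructor
  · intro j hj x hx
    rw [key j x hx, dualProj_act_ne (H := H) ha hb (j := j) (by exact_mod_cast hj)
      (actC_mem (H := H) hpm hx), map_zero]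
  · intro x hx hx0
    rw [key i x hx, dualProj_act_zero (H := H) ha hb (actC_mem (H := H) hpm hx), map_zero]
    have h6 : H.cl (actC C X p x) = actH C X H p (H.cl x) := cl_act H _ _
    rw [h6, hx0, map_zero]

/-- A Kunneth component in a degree where the cohomology vanishes acts as zero. -/
lemma zero_comp_act (hph : PhantomsActAsZero H X) {P : ℕ → Cor C X} (hP : IsCK H X P) {j : ℕ}
    (hj : H.gr X j = ⊥) {i : ℕ} {x : C.A X} (hx : x ∈ C.gr X i) : actC C X (P j) x = 0 := by
  refine phantom' hph (hP.deg j) ?_ (by rw [hP.mul_eq, if_pos rfl]) hx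
  apply hom_zero_of_act
  have h0 : actH C X H (P j) = 0 := by
    apply ext_gr H
    intro n v hv
    rw [hP.actH_eq' j n hv, LinearMap.zero_apply]
    split_ifs with hn
    · subst hn
      rw [hj] at hv
      exact (Submodule.mem_bot _).1 hv
    · rfl
  intro v
  exact LinearMap.congr_fun h0 v

lemma sum_act {P : ℕ → Cor C X} (hP : IsCK H X P) (x : C.A X) :
    x = ∑ l ∈ Finset.range (2 * X.dim + 1), actC C X (P l) x := by
  have h2 : actC C X (∑ l ∈ Finset.range (2 * X.dim + 1), P l) x = x := by
    rw [hP.sum_eq, map_one]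
    rfl
  rw [map_sum, LinearMap.sum_apply] at h2
  exact h2.symm

/-- The components of degree `≠ 2 i, dim X` act as zero on `CH^i(X)`. -/
lemma act_other (hM : AlgOutsideMiddle H X) (hph : PhantomsActAsZero H X) {P : ℕ → Cor C X}
    (hP : IsCK H X P) {i j : ℕ} (h1 : j ≠ 2 * i) (h2 : j ≠ X.dim) {x : C.A X}
    (hx : x ∈ C.gr X i) : actC C X (P j) x = 0 := by
  rcases Nat.even_or_odd j with hj | hj
  · obtain ⟨l, rfl⟩ := hj
    rw [← two_mul] at h1 h2 ⊢
    refine (block_of hph hP ⟨hM.1 l ?_, hM.1 _ ?_⟩).1 i ?_ x hx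
    · intro h; apply h2; exact_mod_cast h
    · intro h; apply h2; omega
    · intro h; apply h1; rw [h]
  · apply zero_comp_act hph hP (hM.2 j ?_ ?_) hx
    · exact_mod_cast hj
    · exact_mod_cast h2

/-- The cycle class map is injective in codimension zero. -/
lemma zero_of_gr_zero {x : C.A X} (hx : x ∈ C.gr X ((0 : ℕ) : ℤ)) (h0 : H.cl x = 0) : x = 0 := by
  obtain ⟨c, hc⟩ := hC.gr_zero X x (by exact_mod_cast hx)
  by_cases hc0 : c = 0
  · rw [hc, hc0, zero_smul]
  · exfalso
    apply hH.one_ne_zero X
    have h4 : (1 : C.A X) = (c⁻¹ • (1 : C.A X)) * x := by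
      rw [hc, smul_mul_smul_comm, inv_mul_cancel₀ hc0, one_mul, one_smul]
    rw [← map_one H.cl, h4, map_mul, h0, mul_zero]

lemma low (hlow : InjectiveBelowMiddle H X) {i : ℕ} (hi : 2 * i < X.dim) {x : C.A X}
    (hx : x ∈ C.gr X i) (h0 : H.cl x = 0) : x = 0 := by
  rcases Nat.eq_zero_or_pos i with h | h
  · subst h
    exact zero_of_gr_zero hx h0
  · exact hlow i x h hi hx h0

lemma cl_comp {P : ℕ → Cor C X} (hP : IsCK H X P) (j : ℕ) {i : ℕ} {x : C.A X}
    (hx : x ∈ C.gr X i) : H.cl (actC C X (P j) x) = if 2 * i = j then H.cl x else 0 := by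
  have h2 := hP.actH_eq' j (2 * i) (H.cl_mem hx)
  have h3 : H.cl (actC C X (P j) x) = actH C X H (P j) (H.cl x) := cl_act H _ _
  rw [h3, h2]
  by_cases hij : 2 * i = j
  · rw [if_pos hij, if_pos (by omega)]
  · rw [if_neg hij, if_neg (by omega)]

/-- **The filtration.** -/
theorem fil_iff (hM : AlgOutsideMiddle H X) (hph : PhantomsActAsZero H X)
    (hlow : InjectiveBelowMiddle H X) {P : ℕ → Cor C X} (hP : IsCK H X P) (i n : ℕ) (x : C.A X) :
    x ∈ ckFil C P i n ↔ x ∈ C.gr X i ∧ (n = 0 ∨ (n + X.dim ≤ 2 * i ∧ H.cl x = 0) ∨ x = 0) := by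
  rw [mem_fil hP]
  refine and_congr_right fun hx => ?_
  have hother : ∀ j, j ≠ 2 * i → j ≠ X.dim → actC C X (P j) x = 0 := fun j h1 h2 =>
    act_other hM hph hP h1 h2 hx
  have hout : ∀ j, 2 * X.dim < j → actC C X (P j) x = 0 := fun j hj => by
    have : P j = 0 := hP.out j hj
    rw [this, map_zero]; rfl
  have hsum := sum_act hP x
  rcases le_or_gt (2 * i) X.dim with hid | hid
  · -- below the middle
    have hz : ∀ j, j ≠ 2 * i → actC C X (P j) x = 0 := by
      intro j hj
      by_cases hjd : j = X.dim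
      · subst hjd
        have hi2 : 2 * i < X.dim := lt_of_le_of_ne hid (Ne.symm hj)
        apply low hlow hi2 (actC_mem (H := H) (hP.deg _) hx)
        rw [cl_comp hP _ hx, if_neg (Ne.symm hj)]
      · exact hother j hj hjd
    have hself : actC C X (P (2 * i)) x = x := by
      by_cases h2 : 2 * i ≤ 2 * X.dim
      · conv_rhs => rw [hsum]
        rw [Finset.sum_eq_single (2 * i)]
        · intro j _ hj
          exact hz j hj
        · intro h
          exact absurd (Finset.mem_range.2 (by omega)) h
      · omega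
    constructor
    · intro h
      by_cases hn : n = 0
      · exact Or.inl hn
      · right; right
        rw [← hself]
        exact h (2 * i) (by omega)
    · rintro (h | ⟨h, -⟩ | h) j hj
      · exact hz j (by omega)
      · exact hz j (by omega)
      · rw [h, map_zero]
  · -- above the middle
    have hb : H.cl x = 0 → actC C X (P (2 * i)) x = 0 := by
      intro h0
      refine (block_of hph hP ⟨hM.1 i ?_, hM.1 _ ?_⟩).2 x hx h0
      · intro h; omega
      · intro h; omega
    constructor
    · intro h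
      by_cases hn : n = 0
      · exact Or.inl hn
      · right
        have h1 : actC C X (P (2 * i)) x = 0 := h (2 * i) (by omega)
        have h2 : H.cl x = 0 := by
          have h3 := cl_comp hP (2 * i) hx
          rw [if_pos rfl, h1, map_zero] at h3
          exact h3.symm
        by_cases hnd : n + X.dim ≤ 2 * i
        · exact Or.inl ⟨hnd, h2⟩
        · right
          rw [hsum]
          apply Finset.sum_eq_zero
          intro j _
          by_cases hj1 : j = 2 * i
          · rw [hj1, h1]
          · by_cases hj2 : j = X.dim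
            · rw [hj2]
              exact h X.dim (by omega)
            · exact hother j hj1 hj2
    · rintro (h | ⟨h, h0⟩ | h) j hj
      · exact hother j (by omega) (by omega)
      · by_cases hj1 : j = 2 * i
        · rw [hj1, hb h0]
        · exact hother j hj1 (by omega)
      · rw [h, map_zero]

end Pool.Agent.T9h61.MC
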